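import Pool.Agent.J4H9.BF.Stm3

/-!
# Project BF, piece K3: `3`-transitivity with signs of the normal subgroup
-/

set_option autoImplicit false

namespace Pool.Agent.J4H19.BF

open Pool.Agent.J4H9.BF

section

variable {G X : Type} [Group G] [MulAction G X] {bar : X → X}

lemma pow_mod {z : G} {x : X} (h : z ^ 3 • x = x) (k : ℕ) : z ^ k • x = z ^ (k % 3) • x := by
  have h1 : ∀ m : ℕ, z ^ (3 * m) • x = x := by
    intro m
    induction m with
    | zero => simp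
    | succ m ih => rw [Nat.mul_succ, pow_add, mul_smul, h, ih]
  conv_lhs => rw [← Nat.mod_add_div k 3, pow_add, mul_smul, h1]

lemma cyc3 (hS : Sgn G X bar) (hM : MT G X bar 3) (K : Subgroup G) (hK : K.Normal) {z₁ : G} {x₁ : X}
    (hz : z₁ ∈ K) (hc : PureCyc G X bar 3 z₁ x₁) (u v w : X) (h : Dist bar ![u, v, w]) :
    ∃ z ∈ K, (z • u = v ∨ z • u = bar v) ∧
      ∀ y, y ≠ u → y ≠ bar u → y ≠ v → y ≠ bar v → y ≠ w → y ≠ bar w → z • y = y := by
  have hd : Dist bar (fun i : Fin 3 => z₁ ^ (i : ℕ) • x₁) := by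
    intro i j hij
    refine ⟨fun h1 => hij (Fin.ext (hc.inj _ i.2 _ j.2 h1)), hc.ne _ _⟩
  obtain ⟨σ, hσ⟩ := hM _ _ hd h
  have h0 : σ • x₁ = u ∨ σ • x₁ = bar u := by simpa using hσ 0
  have h1 : σ • z₁ • x₁ = v ∨ σ • z₁ • x₁ = bar v := by simpa using hσ 1
  have h2 : σ • z₁ ^ 2 • x₁ = w ∨ σ • z₁ ^ 2 • x₁ = bar w := by simpa using hσ 2
  refine ⟨σ * z₁ * σ⁻¹, hK.conj_mem _ hz _, ?_, ?_⟩
  · have hA : (σ * z₁ * σ⁻¹) • (σ • x₁) = σ • z₁ • x₁ := by
      simp [mul_smul]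
    rcases h0 with h0 | h0
    · rw [← h0, hA]
      exact h1
    · have hB : u = bar (σ • x₁) := by rw [h0, hS.bb]
      rw [hB, ← hS.comm, hA]
      rcases h1 with h1 | h1
      · right; rw [h1]
      · left; rw [h1, hS.bb]
  · intro y hyu hyu' hyv hyv' hyw hyw'
    have hkey : ∀ k : ℕ, y ≠ σ • z₁ ^ k • x₁ ∧ y ≠ bar (σ • z₁ ^ k • x₁) := by
      intro k
      rw [pow_mod hc.per k]
      have hk : k % 3 = 0 ∨ k % 3 = 1 ∨ k % 3 = 2 := by omega
      rcases hk with hk | hk | hk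
      · rw [hk, pow_zero, one_smul]
        rcases h0 with h0 | h0 <;> rw [h0] <;> refine ⟨?_, ?_⟩ <;> first | assumption | (rw [hS.bb]; assumption)
      · rw [hk, pow_one]
        rcases h1 with h1 | h1 <;> rw [h1] <;> refine ⟨?_, ?_⟩ <;> first | assumption | (rw [hS.bb]; assumption)
      · rw [hk]
        rcases h2 with h2 | h2 <;> rw [h2] <;> refine ⟨?_, ?_⟩ <;> first | assumption | (rw [hS.bb]; assumption)
    rcases hc.fix (σ⁻¹ • y) with ⟨k, hk⟩ | hfix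
    · exfalso
      rcases hk with hk | hk
      · apply (hkey k).1
        rw [← hk, smul_inv_smul]
      · apply (hkey k).2
        rw [hS.comm, ← hk, smul_inv_smul]
    · rw [mul_smul, mul_smul, hfix, smul_inv_smul]

lemma exists_new [Finite X] {g : ℕ} (hcard : Nat.card X = 2 * g) (hg : 6 ≤ g)
    (u v : X) (T : Finset X) (hT : T.card ≤ 2) :
    ∃ w : X, w ≠ u ∧ w ≠ bar u ∧ w ≠ v ∧ w ≠ bar v ∧ ∀ t ∈ T, w ≠ t ∧ w ≠ bar t := by
  classical
  have := Fintype.ofFinite X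
  set S : Finset X := {u, bar u, v, bar v} ∪ T ∪ T.image bar with hS
  have h1 : S.card ≤ 8 := by
    calc S.card ≤ (({u, bar u, v, bar v} : Finset X) ∪ T).card + (T.image bar).card := Finset.card_union_le _ _
      _ ≤ ({u, bar u, v, bar v} : Finset X).card + T.card + (T.image bar).card := by
          gcongr; exact Finset.card_union_le _ _
      _ ≤ 4 + 2 + 2 := by
          gcongr
          · exact Finset.card_le_four
          · exact le_trans Finset.card_image_le hT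
      _ = 8 := by norm_num
  have h2 : S.card < (Finset.univ : Finset X).card := by
    rw [Finset.card_univ, ← Nat.card_eq_fintype_card, hcard]
    omega
  obtain ⟨w, -, hw⟩ := Finset.exists_mem_notMem_of_card_lt_card h2
  simp only [hS, Finset.mem_union, Finset.mem_insert, Finset.mem_singleton, Finset.mem_image, not_or,
    not_exists, not_and] at hw
  obtain ⟨⟨⟨h3, h4, h5, h6⟩, h7⟩, h8⟩ := hw
  refine ⟨w, h3, h4, h5, h6, fun t ht => ⟨fun h => h7 (h ▸ ht), fun h => h8 t ht h.symm⟩⟩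

lemma move [Finite X] {g : ℕ} (hS : Sgn G X bar) (hcard : Nat.card X = 2 * g) (hg : 6 ≤ g)
    (hM : MT G X bar 3) (K : Subgroup G) (hK : K.Normal) {z₁ : G} {x₁ : X}
    (hz : z₁ ∈ K) (hc : PureCyc G X bar 3 z₁ x₁)
    (hD : ∀ x y : X, y ≠ x → y ≠ bar x → ∃ ν ∈ K, ν • x = bar x ∧ ν • y = bar y ∧
        ∀ z, z ≠ x → z ≠ bar x → z ≠ y → z ≠ bar y → ν • z = z)
    (u v : X) (T : Finset X) (hT : T.card ≤ 2)
    (hu : ∀ t ∈ T, t ≠ u ∧ t ≠ bar u) (hv : ∀ t ∈ T, t ≠ v ∧ t ≠ bar v) :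
    ∃ σ ∈ K, σ • u = v ∧ ∀ t ∈ T, σ • t = t := by
  obtain ⟨w, h1, h2, h3, h4, h5⟩ := exists_new (bar := bar) hcard hg u v T hT
  have hbi : ∀ {a b : X}, a = bar b → b = bar a := by
    intro a b h
    rw [h, hS.bb]
  -- the flip of `v` and `w`
  obtain ⟨ν, hν, hν1, hν2, hν3⟩ := hD v w h3 h4
  have hνT : ∀ t ∈ T, ν • t = t := by
    intro t ht
    exact hν3 t (hv t ht).1 (hv t ht).2 (fun h => (h5 t ht).1 h.symm) (fun h => (h5 t ht).2 (hbi h))
  by_cases huv : u = v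
  · exact ⟨1, K.one_mem, by rw [one_smul, huv], fun t _ => one_smul _ _⟩
  by_cases huv' : u = bar v
  · refine ⟨ν, hν, ?_, hνT⟩
    rw [huv', ← hS.comm, hν1, hS.bb]
  · have hdist : Dist bar ![u, v, w] := by
      have e1 : v ≠ bar u := fun h => huv' (hbi h)
      have e2 : u ≠ bar w := fun h => h2 (hbi h)
      have e3 : v ≠ bar w := fun h => h4 (hbi h)
      intro i j hij
      fin_cases i <;> fin_cases j <;> first | exact absurd rfl hij | skip
      · exact ⟨huv, huv'⟩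
      · exact ⟨fun h => h1 h.symm, e2⟩
      · exact ⟨fun h => huv h.symm, e1⟩
      · exact ⟨fun h => h3 h.symm, e3⟩
      · exact ⟨h1, h2⟩
      · exact ⟨h3, h4⟩
    obtain ⟨z, hzK, hzu, hzf⟩ := cyc3 hS hM K hK hz hc u v w hdist
    have hzT : ∀ t ∈ T, z • t = t := by
      intro t ht
      exact hzf t (hu t ht).1 (hu t ht).2 (hv t ht).1 (hv t ht).2 (fun h => (h5 t ht).1 h.symm)
        (fun h => (h5 t ht).2 (hbi h))
    rcases hzu with hzu | hzu
    · exact ⟨z, hzK, hzu, hzT⟩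
    · refine ⟨ν * z, K.mul_mem hν hzK, ?_, fun t ht => ?_⟩
      · rw [mul_smul, hzu, ← hS.comm, hν1, hS.bb]
      · rw [mul_smul, hzT t ht, hνT t ht]

end

theorem t_K3 : S_K3 := by
  intro G X _ _ _ _ bar g hS hcard hg hMT K hK hcyc hD a b ha hb
  classical
  obtain ⟨z₁, x₁, hz, hc⟩ := hcyc
  have hM := hMT 3 (by norm_num)
  have hmove := move hS hcard hg hM K hK hz hc hD
  have hne : ∀ (σ : G) {x y : X}, x ≠ y → σ • x ≠ σ • y := by
    intro σ x y h h1
    exact h (smul_left_cancel σ h1)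
  have hne' : ∀ (σ : G) {x y : X}, x ≠ bar y → σ • x ≠ bar (σ • y) := by
    intro σ x y h h1
    rw [hS.comm] at h1
    exact h (smul_left_cancel σ h1)
  obtain ⟨σ₁, k1, e1, -⟩ := hmove (a 0) (b 0) ∅ (by simp) (by simp) (by simp)
  have hA1 := hne σ₁ (ha 0 1 (by decide)).1
  have hA1' := hne' σ₁ (ha 0 1 (by decide)).2
  have hA2 := hne σ₁ (ha 0 2 (by decide)).1
  have hA2' := hne' σ₁ (ha 0 2 (by decide)).2
  rw [e1] at hA1 hA1' hA2 hA2'
  obtain ⟨σ₂, k2, e2, f2⟩ := hmove (σ₁ • a 1) (b 1) {b 0} (by simp)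
    (by intro t ht; rw [Finset.mem_singleton] at ht; subst ht; exact ⟨hA1, hA1'⟩)
    (by intro t ht; rw [Finset.mem_singleton] at ht; subst ht; exact hb 0 1 (by decide))
  have f2' : σ₂ • b 0 = b 0 := f2 _ (by simp)
  have hB1 := hne σ₂ (hne σ₁ (ha 1 2 (by decide)).1)
  have hB1' := hne' σ₂ (hne' σ₁ (ha 1 2 (by decide)).2)
  rw [e2] at hB1 hB1'
  have hB2 := hne σ₂ hA2
  have hB2' := hne' σ₂ hA2'
  rw [f2'] at hB2 hB2'
  obtain ⟨σ₃, k3, e3, f3⟩ := hmove (σ₂ • σ₁ • a 2) (b 2) {b 0, b 1} (Finset.card_le_two)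
    (by
      intro t ht
      rw [Finset.mem_insert, Finset.mem_singleton] at ht
      rcases ht with rfl | rfl
      · exact ⟨hB2, hB2'⟩
      · exact ⟨hB1, hB1'⟩)
    (by
      intro t ht
      rw [Finset.mem_insert, Finset.mem_singleton] at ht
      rcases ht with rfl | rfl
      · exact hb 0 2 (by decide)
      · exact hb 1 2 (by decide))
  refine ⟨σ₃ * σ₂ * σ₁, K.mul_mem (K.mul_mem k3 k2) k1, ?_⟩
  intro i
  fin_cases i
  · change (σ₃ * σ₂ * σ₁) • a 0 = b 0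
    rw [mul_smul, mul_smul, e1, f2', f3 _ (by simp)]
  · change (σ₃ * σ₂ * σ₁) • a 1 = b 1
    rw [mul_smul, mul_smul, e2, f3 _ (by simp)]
  · change (σ₃ * σ₂ * σ₁) • a 2 = b 2
    rw [mul_smul, mul_smul, e3]

end Pool.Agent.J4H19.BF
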